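import Pool.Agent.Work.MP_3181e1_lc.ModelSide
import Pool.Agent.Work.MP_3181e1_lc.Sys

open Pool.Agent.Lib.ZFModel Pool.Agent.Work.MP_63c7e0_lc Pool.Agent.Work.MP_3181e1_lc

/-- There is a model of ZFC containing a nonempty crowded Baire countable dense homogeneous
subspace of the Cantor set of cardinality less than the continuum. -/
theorem Pool.Agent.Work.MP_3181e1_lc.Variants.conSmallCDH :
    ∃ (M : Type 1) (E : M → M → Prop), IsZFC E ∧
      ∃ X τ : M, IsTop E X τ ∧ IsCantorSubspace E X τ ∧ (∃ x, E x X) ∧ IsCrowded E X τ ∧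
        IsBaire E X τ ∧ IsCDH E X τ ∧ LtContinuum E X := by
  obtain ⟨P, I, _, bit, S⟩ := exists_sys
  exact S.model
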